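import Mathlib
import Pool.Agent.Q266.ShapeE2
import Pool.Agent.Q266.RamB5

set_option autoImplicit false

/-!
Integrality of the normalised partial sums of two Ramanujan-type series.
-/

namespace Pool.Agent.Results.MP_e1e815_nt.Integrality

open Finset Q266.ShapeE

/-- `a_n` of the problem. -/
noncomputable def a (n : ℕ) : ℚ :=
  1 / ((n : ℚ) * (2 * (n : ℚ) + 1) * ((2 * n).choose n : ℚ)) *
    ∑ j ∈ Finset.range n, (216 : ℚ) ^ (n - 1 - j) * (6 * (j : ℚ) + 1) *
      ((2 * j).choose j : ℚ) ^ 2 * ((3 * j).choose j : ℚ)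

/-- `b_n` of the problem. -/
noncomputable def b (n : ℕ) : ℚ :=
  1 / (2 * (n : ℚ) * (2 * (n : ℚ) + 1) * ((2 * n).choose n : ℚ)) *
    ∑ j ∈ Finset.range n, (2304 : ℚ) ^ (n - 1 - j) * (8 * (j : ℚ) + 1) *
      (((4 * j).factorial : ℚ) / (j.factorial : ℚ) ^ 4)

/-! ### The telescoping pair -/

/-- first member of the pair -/
noncomputable def F (n k : ℕ) : ℚ :=
  if 2 * k ≤ n then 27 ^ k * ((k.factorial : ℚ) * ((2 * n - 2 * k).factorial : ℚ) *
    ((3 * n).factorial : ℚ)) / (((3 * k).factorial : ℚ) * (n.factorial : ℚ) ^ 2 *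
      ((n - k).factorial : ℚ) ^ 2 * ((n - 2 * k).factorial : ℚ)) *
      (6 * n - 6 * k + 1) / 216 ^ n
  else 0

/-- second member of the pair -/
noncomputable def G (n k : ℕ) : ℚ :=
  if 2 * k + 1 ≤ n then -36 * 27 ^ k * n * (3 * n - 3 * k - 1) *
    ((k.factorial : ℚ) * ((2 * n - 2 * k - 2).factorial : ℚ) *
    ((3 * n).factorial : ℚ)) / (((3 * k + 2).factorial : ℚ) * (n.factorial : ℚ) ^ 2 *
      ((n - k - 1).factorial : ℚ) ^ 2 * ((n - 2 * k - 1).factorial : ℚ)) / 216 ^ n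
  else 0

theorem pair (n k : ℕ) : F n (k + 1) - F n k = G (n + 1) k - G n k := by
  rcases Nat.lt_or_ge n (2 * k) with h | h
  · have h1 : ¬ (2 * (k + 1) ≤ n) := by omega
    have h2 : ¬ (2 * k ≤ n) := by omega
    have h3 : ¬ (2 * k + 1 ≤ n) := by omega
    have h4 : ¬ (2 * k + 1 ≤ n + 1) := by omega
    simp only [F, G, h1, h2, h3, h4, if_false, sub_zero]
  have q0 : ∀ j : ℕ, (216 : ℚ) ^ j ≠ 0 := fun j => pow_ne_zero _ (by norm_num)
  rcases Nat.eq_or_lt_of_le h with h | h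
  · subst h
    have h1 : ¬ (2 * (k + 1) ≤ 2 * k) := by omega
    have h3 : ¬ (2 * k + 1 ≤ 2 * k) := by omega
    have s1 : 2 * (2 * k) - 2 * k = 2 * k := by omega
    have s2 : 2 * k - k = k := by omega
    have s3 : 2 * (2 * k + 1) - 2 * k - 2 = 2 * k := by omega
    have s4 : 2 * k + 1 - k - 1 = k := by omega
    have s5 : 2 * k + 1 - 2 * k - 1 = 0 := by omega
    have e1 : 3 * (2 * k + 1) = 3 * (2 * k) + 1 + 1 + 1 := by ring
    simp only [F, G, h1, h3, le_refl, if_true, if_false, s1, s2, s3, s4, s5, Nat.sub_self,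
      Nat.factorial_zero]
    rw [e1]
    simp only [Nat.factorial_succ]
    rw [pow_succ (216 : ℚ)]
    have g1 := fac_ne (3 * (2 * k))
    have g2 := fac_ne (2 * k)
    have g3 := fac_ne (3 * k)
    have g4 := fac_ne k
    have q1 := q0 (2 * k)
    generalize (3 * (2 * k)).factorial = A at *
    generalize (2 * k).factorial = B at *
    generalize (3 * k).factorial = C at *
    generalize k.factorial = D at *
    push_cast
    have q2 : 2 * (k : ℚ) + 1 ≠ 0 := by positivity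
    have q3 : 3 * (k : ℚ) + 1 ≠ 0 := by positivity
    have q4 : 3 * (k : ℚ) + 1 + 1 ≠ 0 := by positivity
    field_simp
    ring
  rcases Nat.eq_or_lt_of_le (Nat.succ_le_of_lt h) with h | h
  · have hn : n = 2 * k + 1 := h.symm
    subst hn
    have h1 : ¬ (2 * (k + 1) ≤ 2 * k + 1) := by omega
    have h2 : 2 * k ≤ 2 * k + 1 := by omega
    have h4 : 2 * k + 1 ≤ 2 * k + 1 + 1 := by omega
    have s1 : 2 * (2 * k + 1) - 2 * k = 2 * k + 1 + 1 := by omega
    have s2 : 2 * k + 1 - k = k + 1 := by omega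
    have s6 : 2 * k + 1 - 2 * k = 1 := by omega
    have s3 : 2 * (2 * k + 1 + 1) - 2 * k - 2 = 2 * k + 1 + 1 := by omega
    have s4 : 2 * k + 1 + 1 - k - 1 = k + 1 := by omega
    have s5 : 2 * k + 1 + 1 - 2 * k - 1 = 1 := by omega
    have s7 : 2 * k + 1 + 1 - 2 = 2 * k := by omega
    have s8 : k + 1 - 1 = k := by omega
    have s9 : 1 - 1 = 0 := by omega
    have e1 : 3 * (2 * k + 1 + 1) = 3 * (2 * k + 1) + 1 + 1 + 1 := by ring
    simp only [F, G, h1, h2, h4, le_refl, if_true, if_false, s1, s2, s3, s4, s5, s6, s7, s8, s9,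
      Nat.factorial_zero]
    rw [e1, Nat.factorial_succ (3 * (2 * k + 1) + 1 + 1), Nat.factorial_succ (3 * (2 * k + 1) + 1),
      Nat.factorial_succ (3 * (2 * k + 1)), Nat.factorial_succ (2 * k + 1),
      Nat.factorial_succ (2 * k), Nat.factorial_succ (3 * k + 1), Nat.factorial_succ (3 * k),
      Nat.factorial_succ k]
    rw [pow_succ (216 : ℚ) (2 * k + 1)]
    have g1 := fac_ne (3 * (2 * k + 1))
    have g2 := fac_ne (2 * k)
    have g3 := fac_ne (3 * k)
    have g4 := fac_ne k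
    have q1 := q0 (2 * k + 1)
    generalize (3 * (2 * k + 1)).factorial = A at *
    generalize (2 * k).factorial = B at *
    generalize (3 * k).factorial = C at *
    generalize k.factorial = D at *
    push_cast
    have q2 : 2 * (k : ℚ) + 1 ≠ 0 := by positivity
    have q3 : 3 * (k : ℚ) + 1 ≠ 0 := by positivity
    have q4 : 3 * (k : ℚ) + 1 + 1 ≠ 0 := by positivity
    have q5 : (k : ℚ) + 1 ≠ 0 := by positivity
    have q6 : 2 * (k : ℚ) + 1 + 1 ≠ 0 := by positivity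
    field_simp
    norm_num
    ring
  · obtain ⟨m, rfl⟩ : ∃ m, n = 2 * k + 2 + m := ⟨n - 2 * k - 2, by omega⟩
    have h1 : 2 * (k + 1) ≤ 2 * k + 2 + m := by omega
    have h2 : 2 * k ≤ 2 * k + 2 + m := by omega
    have h3 : 2 * k + 1 ≤ 2 * k + 2 + m := by omega
    have h4 : 2 * k + 1 ≤ 2 * k + 2 + m + 1 := by omega
    have s1 : 2 * (2 * k + 2 + m) - 2 * (k + 1) = 2 * k + 2 * m + 2 := by omega
    have s2 : 2 * (2 * k + 2 + m) - 2 * k = 2 * k + 2 * m + 2 + 1 + 1 := by omega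
    have s3 : 2 * k + 2 + m - (k + 1) = k + m + 1 := by omega
    have s4 : 2 * k + 2 + m - k = k + m + 1 + 1 := by omega
    have s5 : 2 * k + 2 + m - 2 * (k + 1) = m := by omega
    have s6 : 2 * k + 2 + m - 2 * k = m + 1 + 1 := by omega
    have s7 : 2 * (2 * k + 2 + m + 1) - 2 * k - 2 = 2 * k + 2 * m + 2 + 1 + 1 := by omega
    have s8 : 2 * k + 2 + m + 1 - k - 1 = k + m + 1 + 1 := by omega
    have s9 : 2 * k + 2 + m + 1 - 2 * k - 1 = m + 1 + 1 := by omega
    have s10 : 2 * k + 2 * m + 2 + 1 + 1 - 2 = 2 * k + 2 * m + 2 := by omega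
    have s11 : k + m + 1 + 1 - 1 = k + m + 1 := by omega
    have s12 : m + 1 + 1 - 1 = m + 1 := by omega
    have e1 : 3 * (2 * k + 2 + m + 1) = 3 * (2 * k + 2 + m) + 1 + 1 + 1 := by ring
    have e2 : 3 * (k + 1) = 3 * k + 1 + 1 + 1 := by ring
    simp only [F, G, h1, h2, h3, h4, if_true, s1, s2, s3, s4, s5, s6, s7, s8, s9, s10, s11, s12,
      e1, e2]
    rw [Nat.factorial_succ (3 * (2 * k + 2 + m) + 1 + 1),
      Nat.factorial_succ (3 * (2 * k + 2 + m) + 1), Nat.factorial_succ (3 * (2 * k + 2 + m)),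
      Nat.factorial_succ (2 * k + 2 * m + 2 + 1), Nat.factorial_succ (2 * k + 2 * m + 2),
      Nat.factorial_succ (3 * k + 1 + 1), Nat.factorial_succ (3 * k + 1),
      Nat.factorial_succ (3 * k), Nat.factorial_succ (k + m + 1), Nat.factorial_succ (m + 1),
      Nat.factorial_succ m, Nat.factorial_succ (2 * k + 2 + m), Nat.factorial_succ k]
    rw [pow_succ (216 : ℚ) (2 * k + 2 + m), pow_succ (27 : ℚ) k]
    have g1 := fac_ne (3 * (2 * k + 2 + m))
    have g2 := fac_ne (2 * k + 2 * m + 2)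
    have g3 := fac_ne (3 * k)
    have g4 := fac_ne k
    have g5 := fac_ne (k + m + 1)
    have g6 := fac_ne m
    have g7 := fac_ne (2 * k + 2 + m)
    have q1 := q0 (2 * k + 2 + m)
    generalize (3 * (2 * k + 2 + m)).factorial = A at *
    generalize (2 * k + 2 * m + 2).factorial = B at *
    generalize (3 * k).factorial = C at *
    generalize k.factorial = D at *
    generalize (k + m + 1).factorial = E' at *
    generalize m.factorial = H at *
    generalize (2 * k + 2 + m).factorial = J at *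
    push_cast
    have q2 : 2 * (k : ℚ) + 2 + m + 1 ≠ 0 := by positivity
    have q3 : 3 * (k : ℚ) + 1 ≠ 0 := by positivity
    have q4 : 3 * (k : ℚ) + 1 + 1 ≠ 0 := by positivity
    have q5 : (k : ℚ) + m + 1 + 1 ≠ 0 := by positivity
    have q6 : (m : ℚ) + 1 ≠ 0 := by positivity
    have q7 : (m : ℚ) + 1 + 1 ≠ 0 := by positivity
    have q8 : 3 * (k : ℚ) + 1 + 1 + 1 ≠ 0 := by positivity
    field_simp
    ring

theorem G_zero (k : ℕ) : G 0 k = 0 := by simp [G]

theorem F_of_lt (n k : ℕ) (h : n < k) : F n k = 0 := by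
  have : ¬ (2 * k ≤ n) := by omega
  simp [F, this]

theorem partial_sum (N k : ℕ) :
    (∑ n ∈ range N, F n (k + 1)) - ∑ n ∈ range N, F n k = G N k := by
  rw [← Finset.sum_sub_distrib]
  have h : ∀ n ∈ range N, F n (k + 1) - F n k = G (n + 1) k - G n k := fun n _ => pair n k
  rw [Finset.sum_congr rfl h, Finset.sum_range_sub (fun n => G n k) N, G_zero, sub_zero]

theorem sum_eq (N : ℕ) : ∑ n ∈ range N, F n 0 = - ∑ k ∈ range N, G N k := by
  have h1 : ∑ k ∈ range N, G N k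
      = ∑ k ∈ range N, ((∑ n ∈ range N, F n (k + 1)) - ∑ n ∈ range N, F n k) :=
    Finset.sum_congr rfl fun k _ => (partial_sum N k).symm
  have h2 := Finset.sum_range_sub (fun k => ∑ n ∈ range N, F n k) N
  rw [h1, h2]
  have h3 : ∑ n ∈ range N, F n N = 0 :=
    Finset.sum_eq_zero fun n hn => F_of_lt n N (Finset.mem_range.1 hn)
  rw [h3]
  ring

theorem cb (k : ℕ) : ((2 * k).choose k : ℚ) = ((2 * k).factorial : ℚ) / (k.factorial : ℚ) ^ 2 := by
  rw [Nat.cast_choose ℚ (by omega : k ≤ 2 * k)]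
  have : 2 * k - k = k := by omega
  rw [this]; ring

theorem ct (k : ℕ) : ((3 * k).choose k : ℚ)
    = ((3 * k).factorial : ℚ) / ((k.factorial : ℚ) * ((2 * k).factorial : ℚ)) := by
  rw [Nat.cast_choose ℚ (by omega : k ≤ 3 * k)]
  have : 3 * k - k = 2 * k := by omega
  rw [this]

theorem F_at_zero (k : ℕ) : F k 0 = (6 * (k : ℚ) + 1) * ((2 * k).choose k : ℚ) ^ 2 *
    ((3 * k).choose k : ℚ) / 216 ^ k := by
  rw [cb, ct]
  have g1 := fac_ne (2 * k)
  have g2 := fac_ne k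
  simp only [F, Nat.zero_le, if_true, mul_zero, Nat.sub_zero, pow_zero,
    Nat.factorial_zero]
  push_cast
  field_simp
  ring

/-- the expansion of `a_n` -/
theorem a_eq (n : ℕ) (hn : 1 ≤ n) :
    a n = ∑ k ∈ range n, (if 2 * k + 1 ≤ n then
      27 ^ k * ((3 * (n : ℚ) + 1) - (3 * k + 2)) * E n k / 6 else 0) := by
  have hS : ∑ j ∈ Finset.range n, (216 : ℚ) ^ (n - 1 - j) * (6 * (j : ℚ) + 1) *
      ((2 * j).choose j : ℚ) ^ 2 * ((3 * j).choose j : ℚ)
        = 216 ^ (n - 1) * ∑ k ∈ range n, F k 0 := by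
    rw [Finset.mul_sum]
    apply Finset.sum_congr rfl
    intro k hk
    rw [Finset.mem_range] at hk
    rw [F_at_zero]
    have : (216 : ℚ) ^ (n - 1) = 216 ^ (n - 1 - k) * 216 ^ k := by
      rw [← pow_add]; congr 1; omega
    rw [this]
    have h8 : (216 : ℚ) ^ k ≠ 0 := pow_ne_zero _ (by norm_num)
    field_simp
  unfold a
  rw [hS, sum_eq, ← Finset.sum_neg_distrib, Finset.mul_sum, Finset.mul_sum]
  apply Finset.sum_congr rfl
  intro k hk
  rw [Finset.mem_range] at hk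
  obtain ⟨m, rfl⟩ : ∃ m, n = m + 1 := ⟨n - 1, by omega⟩
  by_cases h1 : 2 * k + 1 ≤ m + 1
  · simp only [G, E, h1, if_true, cb, Nat.add_sub_cancel]
    rw [Nat.factorial_succ (2 * (m + 1))]
    have g1 := fac_ne (3 * k + 2)
    have g2 := fac_ne (m + 1 - k - 1)
    have g3 := fac_ne (m + 1)
    have g4 := fac_ne (m + 1 - 2 * k - 1)
    have g5 := fac_ne (2 * (m + 1))
    generalize (3 * k + 2).factorial = A at *
    generalize (m + 1 - k - 1).factorial = B at *
    generalize (m + 1).factorial = C at *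
    generalize (m + 1 - 2 * k - 1).factorial = D at *
    generalize (2 * (m + 1)).factorial = H at *
    push_cast
    have q1 : (m : ℚ) + 1 ≠ 0 := by positivity
    have q2 : 2 * ((m : ℚ) + 1) + 1 ≠ 0 := by positivity
    have q3 : (216 : ℚ) ^ m ≠ 0 := pow_ne_zero _ (by norm_num)
    rw [pow_succ (216 : ℚ)]
    field_simp
    ring
  · simp only [G, h1, if_false]
    simp

theorem main_a (n : ℕ) (hn : 2 ≤ n) :
    ((∀ m : ℕ, 2 * n + 1 ≠ 3 ^ m) → ∃ z : ℤ, a n = z) ∧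
      ((∃ m : ℕ, 2 * n + 1 = 3 ^ m) → ∃ z : ℤ, 3 * a n = z ∧ ¬ (3 : ℤ) ∣ z) := by
  have h : ∀ k : ℕ, ∃ c : ℤ, ((if 2 * k + 1 ≤ n then
      27 ^ k * ((3 * (n : ℚ) + 1) - (3 * k + 2)) * E n k / 6 else 0)
        = (27 : ℚ) ^ k * (c : ℚ) / 3) ∧ (k = 0 →
          (((∀ m : ℕ, 2 * n + 1 ≠ 3 ^ m) → (3 : ℤ) ∣ c) ∧
        ((∃ m : ℕ, 2 * n + 1 = 3 ^ m) → ¬ (3 : ℤ) ∣ c))) := by
    intro k
    by_cases hk : 2 * k + 1 ≤ n
    · obtain ⟨ρ₁, ρ₃, h1, h3, h0⟩ := E_spec n k hn hk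
      refine ⟨ρ₃ - ρ₁, ?_, ?_⟩
      · simp only [hk, if_true]
        push_cast
        linear_combination (27 : ℚ) ^ k * (1 / 6) * h3 - (27 : ℚ) ^ k * (1 / 6) * h1
      · intro hk0
        subst hk0
        obtain ⟨ha, hb⟩ := h0 rfl
        have hrel : 2 * (ρ₃ - ρ₁) = (3 * (n : ℤ) - 1) * ρ₁ := by
          have : (2 : ℚ) * (ρ₃ - ρ₁) = (3 * (n : ℚ) - 1) * ρ₁ := by
            push_cast at h1 h3
            linear_combination ((3 * (n : ℚ) + 1) / 2) * h1 - h3
          exact_mod_cast this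
        constructor
        · intro hp
          have h5 : (3 : ℤ) ∣ 2 * (ρ₃ - ρ₁) := by
            rw [hrel]
            exact Dvd.dvd.mul_left (ha hp) _
          exact (by norm_num : IsCoprime (3 : ℤ) 2).dvd_of_dvd_mul_left h5
        · intro hp hd
          apply hb hp
          obtain ⟨d, hd'⟩ := hd
          rw [hd'] at hrel
          exact ⟨n * ρ₁ - 2 * d, by linarith⟩
    · refine ⟨0, ?_, ?_⟩
      · simp [hk]
      · rintro rfl
        exact absurd (by omega) hk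
  choose c hc hc0 using h
  have hx : a n = ∑ k ∈ range n, ((27 : ℚ) ^ k * (c k : ℚ) / 3) := by
    rw [a_eq n (by omega)]
    exact Finset.sum_congr rfl fun k _ => hc k
  have hf := finish (a n) n (by omega) c hx
  exact ⟨fun hp => hf.1 ((hc0 0 rfl).1 hp), fun hp => hf.2 ((hc0 0 rfl).2 hp)⟩

theorem b_eq (n : ℕ) : b n = Q266.RamB.bb n := by
  unfold b Q266.RamB.bb
  congr 1
  apply Finset.sum_congr rfl
  intro j _
  ring

/-- For every integer `n > 1`: if `2n+1` is no power of `3`, then `a_n` and `b_n` are integers; if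
`2n+1` is a power of `3`, then `3a_n` and `3b_n` are integers, neither divisible by `3`. -/
theorem result : ∀ n : ℕ, 1 < n →
    ((¬ ∃ m : ℕ, 2 * n + 1 = 3 ^ m) → (∃ z : ℤ, a n = (z : ℚ)) ∧ (∃ z : ℤ, b n = (z : ℚ))) ∧
    ((∃ m : ℕ, 2 * n + 1 = 3 ^ m) →
      (∃ z : ℤ, 3 * a n = (z : ℚ) ∧ ¬ (3 : ℤ) ∣ z) ∧
      (∃ z : ℤ, 3 * b n = (z : ℚ) ∧ ¬ (3 : ℤ) ∣ z)) := by
  intro n hn
  obtain ⟨ha1, ha2⟩ := main_a n hn
  obtain ⟨hb1, hb2⟩ := Q266.RamB.bb_main n hn
  rw [← b_eq] at hb1 hb2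
  constructor
  · intro h
    push Not at h
    exact ⟨ha1 h, hb1 h⟩
  · intro h
    exact ⟨ha2 h, hb2 h⟩

end Pool.Agent.Results.MP_e1e815_nt.Integrality
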